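import Mathlib
import Pool.Agent.H825R3.Tsi.Defs
import Pool.Agent.H825R3.Tsi.Norm
import Pool.Agent.H825R3.Tsi.Exist

set_option autoImplicit false

/-!
# The separation constant of the unit ball of Tsirelson space equals two
-/

namespace Pool.Agent.Results.MP_6d986f_an.SeparationConstantTwo

open Pool.Agent.H825R3.Tsi

/-- `S` is `lam`-separated. -/
def Separated {X : Type} [NormedAddCommGroup X] (lam : ℝ) (S : Set X) : Prop :=
  ∀ x ∈ S, ∀ y ∈ S, x ≠ y → lam ≤ ‖x - y‖

/-- The numbers `lam > 0` for which the unit ball of `X` contains an infinite `lam`-separated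
set. -/
def separations (X : Type) [NormedAddCommGroup X] : Set ℝ :=
  {lam | 0 < lam ∧ ∃ S : Set X, S ⊆ Metric.closedBall 0 1 ∧ S.Infinite ∧ Separated lam S}

/-- The separation constant `P(X)`. -/
noncomputable def P (X : Type) [NormedAddCommGroup X] : ℝ := sSup (separations X)

section

variable {T : Type} [NormedAddCommGroup T] [NormedSpace ℝ T] {e : ℕ → T} (h : IsTsirelson T e)

theorem comb_single (k : ℕ) (a : ℝ) : comb e (Finsupp.single k a) = a • e k := by
  simp [comb]

theorem comb_add (x y : ℕ →₀ ℝ) : comb e (x + y) = comb e x + comb e y := by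
  rw [comb_eq, comb_eq, comb_eq, map_add]

include h in
theorem norm_e_le (k : ℕ) : ‖e k‖ ≤ 1 := by
  have h1 : comb e (Finsupp.single k 1) = e k := by rw [comb_single, one_smul]
  have h2 : ‖e k‖ ≤ max 1 (1 / 2 * ‖e k‖) := by
    rw [← h1]
    refine (h.norm_eq _).2 ?_
    rintro r (⟨j, rfl⟩ | ⟨n, E, hn, hE, rfl⟩)
    · refine le_max_of_le_left ?_
      rw [Finsupp.single_apply]
      split_ifs <;> simp
    · refine le_max_of_le_right (mul_le_mul_of_nonneg_left ?_ (by norm_num))
      have h3 : ∀ i, comb e (restr (E i) (Finsupp.single k 1)) = if k ∈ E i then e k else 0 := by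
        intro i
        unfold restr
        split_ifs with hk
        · rw [Finsupp.filter_single_of_pos (fun x => x ∈ E i) hk, h1]
        · rw [Finsupp.filter_single_of_neg (fun x => x ∈ E i) hk, comb_zero]
      simp only [h3, h1]
      by_cases hk : ∃ i, k ∈ E i
      · obtain ⟨i, hi⟩ := hk
        rw [Finset.sum_eq_single i]
        · rw [if_pos hi]
        · intro j _ hj
          rw [if_neg, norm_zero]
          intro hkj
          rcases lt_or_gt_of_ne hj with hlt | hlt
          · exact lt_irrefl k (hE.2.2 j i hlt k hkj k hi)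
          · exact lt_irrefl k (hE.2.2 i j hlt k hi k hkj)
        · simp
      · push Not at hk
        rw [Finset.sum_eq_zero fun i _ => by rw [if_neg (hk i), norm_zero]]
        exact norm_nonneg _
  rcases le_max_iff.1 h2 with h3 | h3
  · exact h3
  · have := norm_nonneg (e k)
    linarith

include h in
theorem norm_pair_le {a b : ℕ} (hab : a ≠ b) : ‖e a + e b‖ ≤ 1 := by
  set x : ℕ →₀ ℝ := Finsupp.single a 1 + Finsupp.single b 1 with hx
  have h1 : comb e x = e a + e b := by
    rw [hx, comb_add, comb_single, comb_single, one_smul, one_smul]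
  rw [← h1]
  refine (h.norm_eq _).2 ?_
  rintro r (⟨j, rfl⟩ | ⟨n, E, hn, hE, rfl⟩)
  · rw [hx, Finsupp.add_apply, Finsupp.single_apply, Finsupp.single_apply]
    split_ifs with h2 h3
    · exact absurd (h2.trans h3.symm) hab
    · simp
    · simp
    · simp
  · have h3 : ∀ (k : ℕ) (i : Fin n), comb e (restr (E i) (Finsupp.single k 1)) =
        if k ∈ E i then e k else 0 := by
      intro k i
      unfold restr
      split_ifs with hk
      · rw [Finsupp.filter_single_of_pos (fun x => x ∈ E i) hk, comb_single, one_smul]
      · rw [Finsupp.filter_single_of_neg (fun x => x ∈ E i) hk, comb_zero]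
    have h4 : ∀ k : ℕ, ∑ i, ‖comb e (restr (E i) (Finsupp.single k 1))‖ ≤ 1 := by
      intro k
      simp only [h3]
      by_cases hk : ∃ i, k ∈ E i
      · obtain ⟨i, hi⟩ := hk
        rw [Finset.sum_eq_single i]
        · rw [if_pos hi]
          exact norm_e_le h k
        · intro j _ hj
          rw [if_neg, norm_zero]
          intro hkj
          rcases lt_or_gt_of_ne hj with hlt | hlt
          · exact lt_irrefl k (hE.2.2 j i hlt k hkj k hi)
          · exact lt_irrefl k (hE.2.2 i j hlt k hi k hkj)
        · simp
      · push Not at hk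
        rw [Finset.sum_eq_zero fun i _ => by rw [if_neg (hk i), norm_zero]]
        exact zero_le_one
    have h5 : ∀ i, ‖comb e (restr (E i) x)‖ ≤ ‖comb e (restr (E i) (Finsupp.single a 1))‖ +
        ‖comb e (restr (E i) (Finsupp.single b 1))‖ := by
      intro i
      have : restr (E i) x = restr (E i) (Finsupp.single a 1) +
          restr (E i) (Finsupp.single b 1) := Finsupp.filter_add
      rw [this, comb_add]
      exact norm_add_le _ _
    have h6 := Finset.sum_le_sum fun i (_ : i ∈ Finset.univ) => h5 i
    rw [Finset.sum_add_distrib] at h6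
    have h7 := h4 a
    have h8 := h4 b
    linarith

include h in
theorem norm_diff_ge {a b c d : ℕ} (ha : 3 ≤ a) (hab : a < b) (hbc : b < c) (hcd : c < d) :
    2 ≤ ‖(e a + e b) - (e c + e d)‖ := by
  set x : ℕ →₀ ℝ := Finsupp.single a 1 + Finsupp.single b 1 + Finsupp.single c (-1) +
    Finsupp.single d (-1) with hx
  have h1 : comb e x = (e a + e b) - (e c + e d) := by
    rw [hx, comb_add, comb_add, comb_add, comb_single, comb_single, comb_single, comb_single,
      one_smul, one_smul, neg_smul, neg_smul, one_smul, one_smul]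
    abel
  rw [← h1]
  let p : Fin 4 → ℕ := ![a, b, c, d]
  have hp : StrictMono p := by
    rw [Fin.strictMono_iff_lt_succ]
    intro i
    fin_cases i
    · exact hab
    · exact hbc
    · exact hcd
  have hadm : Admissible 4 fun i => ({p i} : Finset ℕ) := by
    refine ⟨fun i => Finset.singleton_nonempty _, fun i k hk => ?_, fun i j hij k hk l hl => ?_⟩
    · rw [Finset.mem_singleton] at hk
      have := hp.monotone (Fin.zero_le i)
      have h2 : p 0 = a := rfl
      omega
    · rw [Finset.mem_singleton] at hk hl
      rw [hk, hl]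
      exact hp hij
  have h2 := h.adm_le x (by norm_num : 1 ≤ 4) hadm
  have h3 : ∀ i : Fin 4, 1 ≤ ‖comb e (restr {p i} x)‖ := by
    intro i
    refine le_trans ?_ (h.coord_le (restr {p i} x) (p i))
    have h4 : restr {p i} x (p i) = x (p i) :=
      Finsupp.filter_apply_pos _ _ (Finset.mem_singleton_self _)
    rw [h4, hx]
    have e1 : a ≠ b := hab.ne
    have e2 : a ≠ c := (hab.trans hbc).ne
    have e3 : a ≠ d := (hab.trans (hbc.trans hcd)).ne
    have e4 : b ≠ c := hbc.ne
    have e5 : b ≠ d := (hbc.trans hcd).ne
    have e6 : c ≠ d := hcd.ne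
    fin_cases i
    · simp [p, e1, e2, e3, e1.symm, e2.symm, e3.symm]
    · simp [p, e1, e4, e5, e1.symm, e4.symm, e5.symm]
    · simp [p, e2, e4, e6, e2.symm, e4.symm, e6.symm]
    · simp [p, e3, e5, e6, e3.symm, e5.symm, e6.symm]
  have h4 : (4 : ℝ) ≤ ∑ i : Fin 4, ‖comb e (restr {p i} x)‖ := by
    have := Finset.sum_le_sum fun i (_ : i ∈ Finset.univ) => h3 i
    simpa using this
  linarith

include h in
theorem isGreatest_two : IsGreatest (separations T) 2 := by
  constructor
  · let u : ℕ → T := fun k => e (2 * k + 3) + e (2 * k + 4)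
    have hsep : ∀ k l, k < l → 2 ≤ ‖u k - u l‖ := fun k l hkl =>
      norm_diff_ge h (by omega) (by omega) (by omega) (by omega)
    have hinj : Function.Injective u := by
      intro k l hkl
      by_contra hne
      rcases lt_or_gt_of_ne hne with hlt | hlt
      · have := hsep k l hlt
        rw [hkl, sub_self, norm_zero] at this
        norm_num at this
      · have := hsep l k hlt
        rw [hkl, sub_self, norm_zero] at this
        norm_num at this
    refine ⟨two_pos, Set.range u, ?_, Set.infinite_range_of_injective hinj, ?_⟩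
    · rintro _ ⟨k, rfl⟩
      rw [mem_closedBall_zero_iff]
      exact norm_pair_le h (by omega)
    · rintro _ ⟨k, rfl⟩ _ ⟨l, rfl⟩ hne
      rcases lt_trichotomy k l with hlt | rfl | hlt
      · exact hsep k l hlt
      · exact absurd rfl hne
      · rw [norm_sub_rev]
        exact hsep l k hlt
  · rintro lam ⟨-, S, hS, hinf, hsep⟩
    obtain ⟨x, hx, y, hy, hne⟩ := hinf.nontrivial
    refine (hsep x hx y hy hne).trans ?_
    have h1 := hS hx
    have h2 := hS hy
    rw [mem_closedBall_zero_iff] at h1 h2
    have := norm_sub_le x y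
    linarith

end

/-- Tsirelson space `T` (in the Figiel–Johnson form) exists, and in each of its realisations
`P(T) = 2`; the supremum is attained, since the unit ball contains an infinite `2`-separated
set. -/
theorem result :
    (∃ (T : Type) (_ : NormedAddCommGroup T) (_ : NormedSpace ℝ T) (e : ℕ → T),
      IsTsirelson T e) ∧
    ∀ (T : Type) [NormedAddCommGroup T] [NormedSpace ℝ T] (e : ℕ → T), IsTsirelson T e →
      P T = 2 ∧ IsGreatest (separations T) 2 :=
  ⟨⟨TT, inferInstance, inferInstance, ee, isTsirelson_TT⟩,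
    fun _ _ _ _ h => ⟨(isGreatest_two h).csSup_eq, isGreatest_two h⟩⟩

end Pool.Agent.Results.MP_6d986f_an.SeparationConstantTwo
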